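import Pool.Agent.Lib.MP_c7f57c_an.Choice

set_option autoImplicit false

namespace Pool.Agent.Variants.MP_c7f57c_an.Dichotomy

open MeasureTheory Filter Topology

/-- `E` is a set of uniqueness: every real trigonometric series whose sums of the first `N` terms
tend to `0` at every point of `[0,1] \ E` has all coefficients zero (`b 0` multiplies the zero
function, so nothing is asked of it). -/
def IsUniquenessSet (E : Set ℝ) : Prop :=
  ∀ a b : ℕ → ℝ,
    (∀ x ∈ Set.Icc (0 : ℝ) 1 \ E,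
      Tendsto (fun N : ℕ => ∑ n ∈ Finset.range N,
        (a n * Real.cos (2 * Real.pi * n * x) + b n * Real.sin (2 * Real.pi * n * x)))
        atTop (𝓝 0)) →
    (∀ n, a n = 0) ∧ (∀ n, 1 ≤ n → b n = 0)

/-- The Moran set with bases `M 0, M 1, ...` and digit sets `D 0, D 1, ...`. -/
def moranSet (M : ℕ → ℕ) (D : ℕ → Finset ℕ) : Set ℝ :=
  {x | ∃ d : ℕ → ℕ, (∀ n, d n ∈ D n) ∧
    x = ∑' n, (d n : ℝ) / ∏ k ∈ Finset.range (n + 1), (M k : ℝ)}

open Pool.Agent.Lib.MP_c7f57c_an

lemma moranSet_eq (M : ℕ → ℕ) (D : ℕ → Finset ℕ) : moranSet M D =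
    {x : ℝ | ∃ d : ℕ → ℕ, (∀ n, d n ∈ D n) ∧ x = ∑' n, (d n : ℝ) / Gen.P M (n + 1)} := by
  simp only [moranSet, Gen.P, Nat.cast_prod]

lemma moranSet_range (M a c : ℕ → ℕ) :
    moranSet M (fun n => Finset.Icc (a n) (c n + a n)) = Set.range (Gen.X M a c) := by
  ext x
  simp only [moranSet_eq, Set.mem_ofPred_eq, Set.mem_range, Finset.mem_Icc]
  constructor
  · rintro ⟨d, hd, rfl⟩
    refine ⟨fun n => ⟨d n - a n, by have := hd n; omega⟩, ?_⟩
    unfold Gen.X
    congr 1; funext n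
    have := hd n
    rw [show d n - a n + a n = d n by omega]
  · rintro ⟨ω, rfl⟩
    exact ⟨fun n => (ω n : ℕ) + a n, fun n => ⟨Nat.le_add_left _ _,
      Nat.add_le_add_right (Nat.le_of_lt_succ (ω n).2) _⟩, rfl⟩

theorem result (M : ℕ → ℕ) (hM : ∀ n, 2 ≤ M n) :
    (∀ D : ℕ → Finset ℕ, (∀ n, (D n).Nonempty) → (∀ n, D n ⊆ Finset.range (M n)) →
      volume (moranSet M D) = 0 → IsUniquenessSet (moranSet M D)) ↔ BddAbove (Set.range M) := by
  constructor
  · intro H
    by_contra hb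
    obtain ⟨a, c, h, ⟨k, hk⟩, ha, h0⟩ := Gen.exists_removal hM hb
    have := Gen.prob_PP c
    have hu := H (fun n => Finset.Icc (a n) (c n + a n)) (fun n => ⟨a n, by simp⟩)
      (fun n d hd => by
        rw [Finset.mem_Icc] at hd
        have := h n
        rw [Finset.mem_range]; omega) (by rw [moranSet_range]; exact h0)
    rw [moranSet_range] at hu
    have h1 := hu
      (fun n => 2 * (∫ ω, Real.cos (2 * Real.pi * n * Gen.X M a c ω) ∂(Gen.PP c)) -
        if n = 0 then 1 else 0)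
      (fun n => 2 * ∫ ω, Real.sin (2 * Real.pi * n * Gen.X M a c ω) ∂(Gen.PP c)) (by
        rintro x ⟨hx, hK⟩
        obtain ⟨δ, hδ, h2⟩ := Gen.exists_delta hM h hk x hx hK
        exact tendsto_series (Gen.continuous_X hM h).measurable (Gen.tendsto_coeff hM h ha)
          x δ hδ h2)
    have h2 := h1.1 0
    simp at h2
    norm_num at h2
  · intro hb D hD hD' h0 a b h
    rw [moranSet_eq] at h0 h
    exact Gen.bounded_unique hM hb hD hD' h0 h

end Pool.Agent.Variants.MP_c7f57c_an.Dichotomy
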