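import Pool.Agent.Lib.MP_c7f57c_an.Decay

set_option autoImplicit false

namespace Pool.Agent.Results.MP_c7f57c_an.NullMultiplicity

open MeasureTheory Filter Topology

/-- `E` is a set of uniqueness: every real trigonometric series whose sums of the first `N` terms
tend to `0` at every point of `[0,1] \ E` has all coefficients zero (`b 0` multiplies the zero
function, so nothing is asked of it). -/
def IsUniquenessSet (E : Set ℝ) : Prop :=
  ∀ a b : ℕ → ℝ,
    (∀ x ∈ Set.Icc (0 : ℝ) 1 \ E,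
      Tendsto (fun N : ℕ => ∑ n ∈ Finset.range N,
        (a n * Real.cos (2 * Real.pi * n * x) + b n * Real.sin (2 * Real.pi * n * x)))
        atTop (𝓝 0)) →
    (∀ n, a n = 0) ∧ (∀ n, 1 ≤ n → b n = 0)

/-- The Moran set with bases `M 0, M 1, ...` and digit sets `D 0, D 1, ...`. -/
def moranSet (M : ℕ → ℕ) (D : ℕ → Finset ℕ) : Set ℝ :=
  {x | ∃ d : ℕ → ℕ, (∀ n, d n ∈ D n) ∧
    x = ∑' n, (d n : ℝ) / ∏ k ∈ Finset.range (n + 1), (M k : ℝ)}

open Pool.Agent.Lib.MP_c7f57c_an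

lemma moranSet_eq : moranSet (fun n => n + 3) (fun n => Finset.Icc 1 (n + 1)) = Set.range X := by
  have hQ : ∀ n, ∏ k ∈ Finset.range (n + 1), ((k + 3 : ℕ) : ℝ) = (Q (n + 1) : ℝ) := by
    intro n; rw [Q, Nat.cast_prod]
  ext x
  simp only [moranSet, Set.mem_ofPred_eq, hQ, Set.mem_range, Finset.mem_Icc]
  constructor
  · rintro ⟨d, hd, rfl⟩
    refine ⟨fun n => ⟨d n - 1, by have := hd n; omega⟩, ?_⟩
    unfold X
    congr 1; funext n
    have := hd n
    rw [show d n - 1 + 1 = d n by omega]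
  · rintro ⟨ω, rfl⟩
    exact ⟨fun n => (ω n : ℕ) + 1, fun n => ⟨Nat.le_add_left _ _, Nat.succ_le_of_lt (ω n).2⟩, rfl⟩

theorem result :
    ∃ (M : ℕ → ℕ) (D : ℕ → Finset ℕ), (∀ n, 2 ≤ M n) ∧ (∀ n, (D n).Nonempty) ∧
      (∀ n, D n ⊆ Finset.range (M n)) ∧
      volume (moranSet M D) = 0 ∧ ¬ IsUniquenessSet (moranSet M D) := by
  refine ⟨fun n => n + 3, fun n => Finset.Icc 1 (n + 1), fun n => by simp,
    fun n => ⟨1, by simp⟩, fun n d hd => ?_, ?_, ?_⟩
  · rw [Finset.mem_Icc] at hd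
    show d ∈ Finset.range (n + 3)
    rw [Finset.mem_range]; omega
  · rw [moranSet_eq]; exact volume_range_X
  · rw [moranSet_eq]
    intro h
    have h1 := h
      (fun n => 2 * (∫ ω, Real.cos (2 * Real.pi * n * X ω) ∂PP) - if n = 0 then 1 else 0)
      (fun n => 2 * ∫ ω, Real.sin (2 * Real.pi * n * X ω) ∂PP) (by
        rintro x ⟨hx, hK⟩
        obtain ⟨δ, hδ, h2⟩ := exists_delta x hx hK
        exact tendsto_series continuous_X.measurable tendsto_coeff x δ hδ h2)
    have h2 := h1.1 0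
    simp at h2
    norm_num at h2

end Pool.Agent.Results.MP_c7f57c_an.NullMultiplicity
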